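import Pool.Agent.W783.Perc.Stmts

set_option autoImplicit false

open MeasureTheory Set

namespace Pool.Agent.W402.PC

open Pool.Agent.W783.PC

noncomputable section

/-- opening all the sites -/
def op {n : ℕ} (ω : Cfg n) : Cfg n := fun c => match c with
  | Sum.inl _ => true
  | Sum.inr e => ω (Sum.inr e)

lemma pm_coord {ι : Type} (r : ι → unitInterval) (c : ι) (b : Bool) :
    pm r {ω | ω c = b} = bern (r c) {b} := by
  have h := (measurePreserving_eval_infinitePi (fun c => bern (r c)) c).measure_preimage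
    (s := {b}) (MeasurableSet.singleton b).nullMeasurableSet
  rw [← h]
  rfl

lemma bern_true (q : unitInterval) : bern q {true} = ENNReal.ofReal (q : ℝ) := by
  simp [bern]

lemma bern_false (q : unitInterval) : bern q {false} = ENNReal.ofReal (1 - (q : ℝ)) := by
  simp [bern]

/-- The sites are almost surely open. -/
lemma ae_op {n : ℕ} (r : Ix n → unitInterval) (hr : ∀ v, r (Sum.inl v) = 1) :
    ∀ᵐ ω ∂(pm r), op ω = ω := by
  have h : ∀ᵐ ω ∂(pm r), ∀ v : V n, ω (Sum.inl v) = true := by
    rw [ae_all_iff]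
    intro v
    rw [ae_iff]
    have : {ω : Cfg n | ¬ ω (Sum.inl v) = true} = {ω | ω (Sum.inl v) = false} := by
      ext ω; simp
    rw [this, pm_coord, bern_false, hr]
    simp
  filter_upwards [h] with ω hω
  funext c
  cases c with
  | inl v => exact (hω v).symm
  | inr e => rfl

lemma pm_op {n : ℕ} (r : Ix n → unitInterval) (hr : ∀ v, r (Sum.inl v) = 1) (A : Set (Cfg n)) :
    pm r A = pm r {ω | op ω ∈ A} := by
  apply measure_congr
  filter_upwards [ae_op r hr] with ω hω
  apply propext
  show ω ∈ A ↔ op ω ∈ A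
  rw [hω]

lemma reach_iff {n : ℕ} {E : Set (Sym2 (V n))} {ω : Cfg n} {R : Set (V n)} {x y : V n} :
    (G E ω R).Reachable x y ↔ Relation.ReflTransGen (G E ω R).Adj x y :=
  SimpleGraph.reachable_iff_reflTransGen x y

lemma reach_mono {n : ℕ} {E : Set (Sym2 (V n))} {ω : Cfg n} {R R' : Set (V n)} (h : R ⊆ R')
    {x y : V n} (hxy : (G E ω R).Reachable x y) : (G E ω R').Reachable x y := by
  apply hxy.mono
  intro a b hab
  exact ⟨hab.1, h hab.2.1, h hab.2.2.1, hab.2.2.2⟩

lemma reach_mem {n : ℕ} {E : Set (Sym2 (V n))} {ω : Cfg n} {R : Set (V n)}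
    {x y : V n} (hxy : (G E ω R).Reachable x y) : x = y ∨ (x ∈ R ∧ y ∈ R) := by
  rw [reach_iff] at hxy
  induction hxy with
  | refl => exact Or.inl rfl
  | tail _ hab ih =>
    rcases ih with rfl | ih
    · exact Or.inr ⟨hab.2.1, hab.2.2.1⟩
    · exact Or.inr ⟨ih.1, hab.2.2.1⟩

/-- Reachability of the opened configuration depends on the bonds inside the region. -/
lemma reach_dep {n : ℕ} (E : Set (Sym2 (V n))) (R : Set (V n)) (x y : V n) :
    DepOn {ω : Cfg n | (G E (op ω) R).Reachable x y}
      {c | ∃ a ∈ R, ∃ b ∈ R, c = Sum.inr s(a, b)} := by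
  have key : ∀ ω ω' : Cfg n, (∀ c ∈ {c | ∃ a ∈ R, ∃ b ∈ R, c = Sum.inr s(a, b)}, ω c = ω' c) →
      (G E (op ω) R).Reachable x y → (G E (op ω') R).Reachable x y := by
    intro ω ω' h hr
    apply hr.mono
    intro a b hab
    refine ⟨hab.1, hab.2.1, hab.2.2.1, hab.2.2.2.1, rfl, rfl, ?_⟩
    have h1 : ω (Sum.inr s(a, b)) = true := hab.2.2.2.2.2.2
    show ω' (Sum.inr s(a, b)) = true
    rw [← h _ ⟨a, hab.2.1, b, hab.2.2.1, rfl⟩, h1]
  intro ω ω' h
  exact ⟨key ω ω' h, key ω' ω (fun c hc => (h c hc).symm)⟩

/-- The cluster event. -/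
def CE {n : ℕ} (E : Set (Sym2 (V n))) (S : Set (V n)) (x : V n) (C : Set (V n)) : Set (Cfg n) :=
  {ω | {y | (G E (op ω) S).Reachable x y} = C}

lemma CE_dep {n : ℕ} (E : Set (Sym2 (V n))) (S : Set (V n)) (x : V n) (C : Set (V n)) :
    DepOn (CE E S x C) {c | ∃ a ∈ C, a ∈ S ∧ ∃ b ∈ S, c = Sum.inr s(a, b)} := by
  have key : ∀ ω ω' : Cfg n,
      (∀ c ∈ {c | ∃ a ∈ C, a ∈ S ∧ ∃ b ∈ S, c = Sum.inr s(a, b)}, ω c = ω' c) →
      ω ∈ CE E S x C → ω' ∈ CE E S x C := by
    intro ω ω' h hC
    have hadj : ∀ a ∈ C, ∀ b, (G E (op ω) S).Adj a b ↔ (G E (op ω') S).Adj a b := by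
      intro a ha b
      constructor
      · rintro ⟨h1, h2, h3, h4, h5, h6, h7⟩
        refine ⟨h1, h2, h3, h4, rfl, rfl, ?_⟩
        have h8 : ω (Sum.inr s(a, b)) = true := h7
        show ω' (Sum.inr s(a, b)) = true
        rw [← h _ ⟨a, ha, h2, b, h3, rfl⟩, h8]
      · rintro ⟨h1, h2, h3, h4, h5, h6, h7⟩
        refine ⟨h1, h2, h3, h4, rfl, rfl, ?_⟩
        have h8 : ω' (Sum.inr s(a, b)) = true := h7
        show ω (Sum.inr s(a, b)) = true
        rw [h _ ⟨a, ha, h2, b, h3, rfl⟩, h8]
    have hC' : ∀ y, (G E (op ω) S).Reachable x y ↔ y ∈ C := by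
      intro y
      have : {y | (G E (op ω) S).Reachable x y} = C := hC
      rw [← this]
      rfl
    show {y | (G E (op ω') S).Reachable x y} = C
    ext y
    show (G E (op ω') S).Reachable x y ↔ y ∈ C
    rw [← hC']
    constructor
    · intro hr
      rw [reach_iff] at hr
      induction hr with
      | refl => exact SimpleGraph.Reachable.refl _
      | tail _ hab ih =>
        exact ih.trans ((hadj _ ((hC' _).1 ih) _).2 hab).reachable
    · intro hr
      have hr' := hr
      rw [reach_iff] at hr'
      clear hr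
      induction hr' with
      | refl => exact SimpleGraph.Reachable.refl _
      | tail hxa hab ih =>
        exact ih.trans ((hadj _ ((hC' _).1 (reach_iff.2 hxa)) _).1 hab).reachable
  intro ω ω' h
  exact ⟨key ω ω' h, key ω' ω (fun c hc => (h c hc).symm)⟩

/-- Last exit decomposition. -/
lemma last_exit {n : ℕ} {E : Set (Sym2 (V n))} {ω : Cfg n} {R S : Set (V n)} {x w : V n}
    (h : (G E ω R).Reachable x w) (hw : ¬ (G E ω S).Reachable x w) :
    ∃ y z, (G E ω S).Reachable x y ∧ ¬ (G E ω S).Reachable x z ∧ (G E ω R).Adj y z ∧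
      (G E ω (R \ {v | (G E ω S).Reachable x v})).Reachable z w := by
  have key : ∀ v, Relation.ReflTransGen (G E ω R).Adj v w →
      ((¬ (G E ω S).Reachable x v ∧
        (G E ω (R \ {v | (G E ω S).Reachable x v})).Reachable v w) ∨
      ∃ y z, (G E ω S).Reachable x y ∧ ¬ (G E ω S).Reachable x z ∧ (G E ω R).Adj y z ∧
        (G E ω (R \ {v | (G E ω S).Reachable x v})).Reachable z w) := by
    intro v hv
    induction hv using Relation.ReflTransGen.head_induction_on with
    | refl => exact Or.inl ⟨hw, SimpleGraph.Reachable.refl _⟩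
    | @head a b hab _ ih =>
      rcases ih with ⟨hb, hr⟩ | ih
      · by_cases ha : (G E ω S).Reachable x a
        · exact Or.inr ⟨a, b, ha, hb, hab, hr⟩
        · refine Or.inl ⟨ha, ?_⟩
          refine SimpleGraph.Reachable.trans (SimpleGraph.Adj.reachable ?_) hr
          exact ⟨hab.1, ⟨hab.2.1, ha⟩, ⟨hab.2.2.1, hb⟩, hab.2.2.2⟩
      · exact Or.inr ih
  rcases key x (reach_iff.1 h) with h1 | h1
  · exact absurd (SimpleGraph.Reachable.refl _) h1.1
  · exact h1

lemma dep_meas {ι : Type} (h2 : S_depmeas) {A : Set (ι → Bool)} {D : Set ι} (hD : D.Finite)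
    (h : DepOn A D) : MeasurableSet A := by
  apply h2 ι hD.toFinset A
  rw [Set.Finite.coe_toFinset]
  exact h

lemma fin_pairs {n : ℕ} (R R' : Set (V n)) (hR : R.Finite) (hR' : R'.Finite) :
    {c : Ix n | ∃ a ∈ R, ∃ b ∈ R', c = Sum.inr s(a, b)}.Finite := by
  apply ((hR.prod hR').image (fun q : V n × V n => (Sum.inr s(q.1, q.2) : Ix n))).subset
  rintro c ⟨a, ha, b, hb, rfl⟩
  exact ⟨(a, b), ⟨ha, hb⟩, rfl⟩

/-- Probability of a connection in `R` (all sites open). -/
def Pr {n : ℕ} (r : Ix n → unitInterval) (E : Set (Sym2 (V n))) (R : Set (V n)) (x y : V n) : ℝ :=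
  (pm r).real {ω | (G E (op ω) R).Reachable x y}

lemma Pr_nonneg {n : ℕ} (r : Ix n → unitInterval) (E : Set (Sym2 (V n))) (R : Set (V n))
    (x y : V n) : 0 ≤ Pr r E R x y := measureReal_nonneg

lemma Pr_le_one {n : ℕ} (r : Ix n → unitInterval) (E : Set (Sym2 (V n))) (R : Set (V n))
    (x y : V n) : Pr r E R x y ≤ 1 := measureReal_le_one

lemma Pr_mono {n : ℕ} (r : Ix n → unitInterval) (E : Set (Sym2 (V n))) {R R' : Set (V n)}
    (h : R ⊆ R') (x y : V n) : Pr r E R x y ≤ Pr r E R' x y :=
  measureReal_mono (fun _ hω => reach_mono h hω)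

lemma Pr_zero {n : ℕ} (r : Ix n → unitInterval) (E : Set (Sym2 (V n))) {R : Set (V n)}
    {x y : V n} (hx : x ∈ R) (hy : y ∉ R) : Pr r E R x y = 0 := by
  have : {ω : Cfg n | (G E (op ω) R).Reachable x y} = ∅ := by
    ext ω
    simp only [mem_empty_iff_false, iff_false]
    intro h
    rcases reach_mem h with rfl | h
    · exact hy hx
    · exact hy h.2
  rw [Pr, this, measureReal_empty]

open scoped Classical in
/-- The one-step inequality. -/
lemma step {n : ℕ} (h1 : S_indep) (h2 : S_depmeas) (r : Ix n → unitInterval)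
    (E : Set (Sym2 (V n))) (T R : Finset (V n)) (x w : V n) (hx : x ∈ T) :
    Pr r E R x w ≤ Pr r E T x w + ∑ y ∈ T, ∑ z ∈ R \ T,
      Pr r E T x y * (r (Sum.inr s(y, z)) : ℝ) * Pr r E R z w := by
  set B : V n → V n → Finset (V n) → Set (Cfg n) := fun y z C =>
    CE E (T : Set (V n)) x (C : Set (V n)) ∩ ({ω | ω (Sum.inr s(y, z)) = true} ∩
      {ω | (G E (op ω) ((R : Set (V n)) \ C)).Reachable z w}) with hB
  have hsub : {ω : Cfg n | (G E (op ω) (R : Set (V n))).Reachable x w} ⊆
      {ω | (G E (op ω) (T : Set (V n))).Reachable x w} ∪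
        ⋃ y ∈ T, ⋃ z ∈ R \ T, ⋃ C ∈ T.powerset.filter (fun C => y ∈ C), B y z C := by
    intro ω hω
    by_cases hw : (G E (op ω) (T : Set (V n))).Reachable x w
    · exact Or.inl hw
    · right
      obtain ⟨y, z, hy, hz, hyz, hr⟩ := last_exit hω hw
      have hyT : y ∈ T := by
        rcases reach_mem hy with rfl | h
        · exact hx
        · exact_mod_cast h.2
      have hzT : z ∉ T := by
        intro hzT
        apply hz
        exact hy.trans (SimpleGraph.Adj.reachable
          ⟨hyz.1, by exact_mod_cast hyT, by exact_mod_cast hzT, hyz.2.2.2⟩)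
      have hzR : z ∈ R := by exact_mod_cast hyz.2.2.1
      have hsubT : {v | (G E (op ω) (T : Set (V n))).Reachable x v} ⊆ (T : Set (V n)) := by
        intro v hv
        rcases reach_mem hv with rfl | h
        · exact_mod_cast hx
        · exact h.2
      have hfin : {v | (G E (op ω) (T : Set (V n))).Reachable x v}.Finite :=
        T.finite_toSet.subset hsubT
      simp only [mem_iUnion]
      refine ⟨y, hyT, z, by simp [hzR, hzT], hfin.toFinset, ?_, ?_⟩
      · simp only [Finset.mem_filter, Finset.mem_powerset]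
        constructor
        · intro v hv
          rw [Set.Finite.mem_toFinset] at hv
          exact_mod_cast hsubT hv
        · rw [Set.Finite.mem_toFinset]
          exact hy
      · refine ⟨?_, hyz.2.2.2.2.2.2, ?_⟩
        · show {v | (G E (op ω) (T : Set (V n))).Reachable x v} = _
          rw [Set.Finite.coe_toFinset]
        · show (G E (op ω) ((R : Set (V n)) \ _)).Reachable z w
          rw [Set.Finite.coe_toFinset]
          exact hr
  have hBval : ∀ y ∈ T, ∀ z ∈ R \ T, ∀ C ∈ T.powerset.filter (fun C => y ∈ C),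
      (pm r).real (B y z C) ≤ (pm r).real (CE E (T : Set (V n)) x (C : Set (V n))) *
        ((r (Sum.inr s(y, z)) : ℝ) * Pr r E R z w) := by
    intro y hy z hz C hC
    simp only [Finset.mem_filter, Finset.mem_powerset] at hC
    simp only [Finset.mem_sdiff] at hz
    have hCd := CE_dep E (T : Set (V n)) x (C : Set (V n))
    have hRd := reach_dep E ((R : Set (V n)) \ C) z w
    have hOd : DepOn {ω : Cfg n | ω (Sum.inr s(y, z)) = true} {Sum.inr s(y, z)} := by
      intro ω ω' h
      show ω _ = true ↔ ω' _ = true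
      rw [h _ rfl]
    have hCm : MeasurableSet (CE E (T : Set (V n)) x (C : Set (V n))) := by
      refine dep_meas h2 ((fin_pairs (T : Set (V n)) T T.finite_toSet T.finite_toSet).subset ?_) hCd
      rintro c ⟨a, _, ha, b, hb, rfl⟩
      exact ⟨a, ha, b, hb, rfl⟩
    have hRm := dep_meas h2 (fin_pairs _ _ (R.finite_toSet.subset sdiff_subset)
      (R.finite_toSet.subset sdiff_subset)) hRd
    have hOm := dep_meas h2 (Set.finite_singleton _) hOd
    have e2 : pm r ({ω : Cfg n | ω (Sum.inr s(y, z)) = true} ∩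
        {ω | (G E (op ω) ((R : Set (V n)) \ C)).Reachable z w}) =
        pm r {ω : Cfg n | ω (Sum.inr s(y, z)) = true} *
          pm r {ω | (G E (op ω) ((R : Set (V n)) \ C)).Reachable z w} := by
      refine h1 _ r _ _ _ _ hOd hRd ?_ hOm hRm
      rw [Set.disjoint_left]
      rintro c rfl ⟨a, ha, b, hb, hab⟩
      have hy' : y ∈ s(a, b) := by
        rw [← Sum.inr_injective hab]
        exact Sym2.mem_mk_left _ _
      rw [Sym2.mem_iff] at hy'
      rcases hy' with rfl | rfl
      · exact ha.2 (by exact_mod_cast hC.2)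
      · exact hb.2 (by exact_mod_cast hC.2)
    have e1 : pm r (B y z C) = pm r (CE E (T : Set (V n)) x (C : Set (V n))) *
        pm r ({ω : Cfg n | ω (Sum.inr s(y, z)) = true} ∩
        {ω | (G E (op ω) ((R : Set (V n)) \ C)).Reachable z w}) := by
      have hd : DepOn ({ω : Cfg n | ω (Sum.inr s(y, z)) = true} ∩
          {ω | (G E (op ω) ((R : Set (V n)) \ C)).Reachable z w})
          ({Sum.inr s(y, z)} ∪ {c | ∃ a ∈ ((R : Set (V n)) \ C), ∃ b ∈ ((R : Set (V n)) \ C),
            c = Sum.inr s(a, b)}) := by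
        intro ω ω' h
        exact and_congr (hOd ω ω' (fun c hc => h c (Or.inl hc)))
          (hRd ω ω' (fun c hc => h c (Or.inr hc)))
      refine h1 _ r _ _ _ _ hCd hd ?_ hCm (hOm.inter hRm)
      rw [Set.disjoint_left]
      rintro c ⟨a, haC, haT, b, hb, rfl⟩ (h | ⟨a', ha', b', hb', h⟩)
      · have h3 : s(a, b) = s(y, z) := Sum.inr_injective h
        have hz' : z ∈ s(a, b) := by
          rw [h3]
          exact Sym2.mem_mk_right _ _
        rw [Sym2.mem_iff] at hz'
        rcases hz' with rfl | rfl
        · exact hz.2 (by exact_mod_cast haT)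
        · exact hz.2 (by exact_mod_cast hb)
      · have h3 : s(a, b) = s(a', b') := Sum.inr_injective h
        have hz' : a ∈ s(a', b') := by
          rw [← h3]
          exact Sym2.mem_mk_left _ _
        rw [Sym2.mem_iff] at hz'
        rcases hz' with rfl | rfl
        · exact ha'.2 haC
        · exact hb'.2 haC
    have e3 : (pm r).real (B y z C) = (pm r).real (CE E (T : Set (V n)) x (C : Set (V n))) *
        ((r (Sum.inr s(y, z)) : ℝ) * Pr r E ((R : Set (V n)) \ C) z w) := by
      rw [Measure.real, e1, e2, pm_coord, bern_true, ENNReal.toReal_mul, ENNReal.toReal_mul,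
        ENNReal.toReal_ofReal (r _).2.1]
      rfl
    rw [e3]
    have := Pr_mono r E (R := (R : Set (V n)) \ C) (R' := R) sdiff_subset z w
    have h0 := (r (Sum.inr s(y, z))).2.1
    have h00 : 0 ≤ (pm r).real (CE E (T : Set (V n)) x (C : Set (V n))) := measureReal_nonneg
    gcongr
  have hsum : ∀ y ∈ T, ∑ C ∈ T.powerset.filter (fun C => y ∈ C),
      (pm r).real (CE E (T : Set (V n)) x (C : Set (V n))) ≤ Pr r E T x y := by
    intro y hy
    rw [← measureReal_biUnion_finset]
    · apply measureReal_mono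
      · intro ω hω
        simp only [mem_iUnion] at hω
        obtain ⟨C, hC, hω⟩ := hω
        simp only [Finset.mem_filter, Finset.mem_powerset] at hC
        have h3 : {v | (G E (op ω) (T : Set (V n))).Reachable x v} = (C : Set (V n)) := hω
        have h4 : y ∈ (C : Set (V n)) := by exact_mod_cast hC.2
        rw [← h3] at h4
        exact h4
      · exact measure_ne_top _ _
    · intro C _ C' _ hne
      rw [Function.onFun, Set.disjoint_left]
      intro ω h3 h4
      apply hne
      have h5 : (C : Set (V n)) = C' := h3.symm.trans h4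
      exact_mod_cast h5
    · intro C _
      refine dep_meas h2 ((fin_pairs (T : Set (V n)) T T.finite_toSet T.finite_toSet).subset ?_)
        (CE_dep E (T : Set (V n)) x (C : Set (V n)))
      rintro c ⟨a, _, ha, b, hb, rfl⟩
      exact ⟨a, ha, b, hb, rfl⟩
  calc Pr r E R x w ≤ (pm r).real ({ω | (G E (op ω) (T : Set (V n))).Reachable x w} ∪
        ⋃ y ∈ T, ⋃ z ∈ R \ T, ⋃ C ∈ T.powerset.filter (fun C => y ∈ C), B y z C) :=
        measureReal_mono hsub
    _ ≤ Pr r E T x w + (pm r).real (⋃ y ∈ T, ⋃ z ∈ R \ T,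
          ⋃ C ∈ T.powerset.filter (fun C => y ∈ C), B y z C) := measureReal_union_le _ _
    _ ≤ Pr r E T x w + ∑ y ∈ T, ∑ z ∈ R \ T, ∑ C ∈ T.powerset.filter (fun C => y ∈ C),
          (pm r).real (B y z C) := by
        gcongr
        refine (measureReal_biUnion_finset_le _ _).trans ?_
        apply Finset.sum_le_sum
        intro y _
        refine (measureReal_biUnion_finset_le _ _).trans ?_
        apply Finset.sum_le_sum
        intro z _
        exact measureReal_biUnion_finset_le _ _
    _ ≤ Pr r E T x w + ∑ y ∈ T, ∑ z ∈ R \ T,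
          Pr r E T x y * (r (Sum.inr s(y, z)) : ℝ) * Pr r E R z w := by
        gcongr with y hy z hz
        refine (Finset.sum_le_sum (hBval y hy z hz)).trans ?_
        rw [← Finset.sum_mul, mul_assoc]
        have h0 := (r (Sum.inr s(y, z))).2.1
        have h00 := Pr_nonneg r E R z w
        have := hsum y hy
        gcongr

lemma isNN_iff {n : ℕ} {y z : V n} : isNN s(y, z) ↔ NN y z := by
  constructor
  · rintro ⟨a, b, h, hab⟩
    rw [Sym2.eq_iff] at h
    rcases h with ⟨rfl, rfl⟩ | ⟨rfl, rfl⟩
    · exact hab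
    · unfold NN at *
      rw [abs_sub_comm]
      simp_rw [abs_sub_comm (y.2 _) (z.2 _)]
      exact hab
  · intro h
    exact ⟨y, z, rfl, h⟩

lemma isLg_iff {n m : ℕ} {y z : V n} : isLg m s(y, z) ↔ Lg m y z := by
  constructor
  · rintro ⟨a, b, h, hab⟩
    rw [Sym2.eq_iff] at h
    rcases h with ⟨rfl, rfl⟩ | ⟨rfl, rfl⟩
    · exact hab
    · obtain ⟨h1, h2, h3⟩ := hab
      refine ⟨h1.symm, ?_, ?_⟩
      · rw [← h1]; exact h2
      · omega
  · intro h
    exact ⟨y, z, rfl, h⟩

lemma NN_fin {n : ℕ} (y : V n) : {z : V n | NN y z}.Finite := by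
  apply ((Set.finite_Icc (y.1 - 1) (y.1 + 1)).prod
    (Set.Finite.pi' (fun i : Fin n => Set.finite_Icc (y.2 i - 1) (y.2 i + 1)))).subset
  intro z hz
  have hz' : |y.1 - z.1| + ∑ i, |y.2 i - z.2 i| = 1 := hz
  have h0 : ∀ i, 0 ≤ |y.2 i - z.2 i| := fun i => abs_nonneg _
  have h1 : 0 ≤ ∑ i, |y.2 i - z.2 i| := Finset.sum_nonneg (fun i _ => h0 i)
  have h2 := abs_nonneg (y.1 - z.1)
  constructor
  · have h3 : |y.1 - z.1| ≤ 1 := by linarith
    rw [abs_le] at h3
    exact ⟨by linarith, by linarith⟩
  · intro i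
    have h4 : |y.2 i - z.2 i| ≤ ∑ i, |y.2 i - z.2 i| :=
      Finset.single_le_sum (f := fun i => |y.2 i - z.2 i|) (fun i _ => h0 i) (Finset.mem_univ i)
    have h3 : |y.2 i - z.2 i| ≤ 1 := by linarith
    rw [abs_le] at h3
    exact ⟨by linarith, by linarith⟩

lemma lrp_le (β : NNReal) (s : ℝ) (k : ℕ) : (lrp β s k : ℝ) ≤ β * (k : ℝ) ^ (-s) := by
  show 1 - Real.exp (-((β : ℝ) * (k : ℝ) ^ (-s))) ≤ _
  have := Real.add_one_le_exp (-((β : ℝ) * (k : ℝ) ^ (-s)))
  linarith

open scoped Classical in
/-- The degree is summable. -/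
lemma prob_summable {n m : ℕ} (a p : unitInterval) (β : NNReal) (s : ℝ) (hs : 1 < s) (y : V n) :
    Summable (fun z : V n => (prob (n := n) a p β s m (Sum.inr s(y, z)) : ℝ)) := by
  have h1 : Summable (fun z : V n => if NN y z then (1 : ℝ) else 0) := by
    apply summable_of_ne_finset_zero (s := (NN_fin y).toFinset)
    intro z hz
    rw [Set.Finite.mem_toFinset] at hz
    exact if_neg hz
  have h2 : Summable (fun z : V n => if z.2 = y.2 then (β : ℝ) * |((z.1 - y.1 : ℤ) : ℝ)| ^ (-s)
      else 0) := by
    have hinj : Function.Injective (fun k : ℤ => ((k, y.2) : V n)) := by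
      intro k l h
      exact congrArg Prod.fst h
    rw [← hinj.summable_iff]
    · have h3 : Summable (fun k : ℤ => (β : ℝ) * |(k : ℝ)| ^ (-s)) :=
        (Real.summable_abs_int_rpow hs).mul_left _
      have h4 := (Equiv.subRight y.1).summable_iff.2 h3
      apply h4.congr
      intro k
      simp
    · intro z hz
      apply if_neg
      intro h
      apply hz
      exact ⟨z.1, by rw [← h]⟩
  apply Summable.of_nonneg_of_le _ _ (h1.add h2)
  · intro z
    exact (prob a p β s m _).2.1
  · intro z
    have h0 : (0 : ℝ) ≤ if z.2 = y.2 then (β : ℝ) * |((z.1 - y.1 : ℤ) : ℝ)| ^ (-s) else 0 := by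
      split_ifs
      · exact mul_nonneg β.2 (Real.rpow_nonneg (abs_nonneg _) _)
      · exact le_refl _
    show ((if isNN s(y, z) then p else if isLg m s(y, z) then lrp β s (len s(y, z)) else 0 :
      unitInterval) : ℝ) ≤ _
    rw [isNN_iff, isLg_iff]
    by_cases hN : NN y z
    · rw [if_pos hN, if_pos hN]
      have := p.2.2
      linarith
    · rw [if_neg hN, if_neg hN]
      by_cases hL : Lg m y z
      · rw [if_pos hL, if_pos hL.1.symm]
        refine (lrp_le _ _ _).trans ?_
        have h5 : ((len s(y, z) : ℕ) : ℝ) = |((z.1 - y.1 : ℤ) : ℝ)| := by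
          show (((y.1 - z.1).natAbs : ℕ) : ℝ) = _
          rw [Nat.cast_natAbs, ← Int.cast_abs, abs_sub_comm]
        rw [h5]
        linarith
      · rw [if_neg hL]
        simpa using h0

open scoped Classical in
/-- Bound for finite regions. -/
lemma region_bound {n m : ℕ} (h1 : S_indep) (h2 : S_depmeas) (p : unitInterval) (β : NNReal)
    (s : ℝ) (hs : 1 < s) (S : Finset (V n)) (ρ : ℝ) (h0 : 0 ∈ S) (hρ : ρ < 1)
    (hphi : ∀ x : V n, phi p β s m (S.map (addRightEmbedding x)) x ≤ ρ) (R : Finset (V n))
    (x : V n) (hx : x ∈ R) :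
    ∑ w ∈ R, Pr (prob 1 p β s m) (EdI m) (R : Set (V n)) x w ≤ S.card / (1 - ρ) := by
  set r : Ix n → unitInterval := prob 1 p β s m with hr
  set X : V n → ℝ := fun x => ∑ w ∈ R, Pr r (EdI m) (R : Set (V n)) x w with hX
  have hX0 : ∀ z, 0 ≤ X z := fun z => Finset.sum_nonneg (fun w _ => Pr_nonneg _ _ _ _ _)
  set M : ℝ := R.sup' ⟨x, hx⟩ X with hM
  have hXM : ∀ z ∈ R, X z ≤ M := fun z hz => Finset.le_sup' X hz
  have hM0 : 0 ≤ M := (hX0 x).trans (hXM x hx)
  have hstep : ∀ z ∈ R, X z ≤ S.card + ρ * M := by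
    intro z hz
    set T : Finset (V n) := S.map (addRightEmbedding z) with hT
    have hzT : z ∈ T := by
      rw [hT, Finset.mem_map]
      exact ⟨0, h0, by simp⟩
    have hcard : T.card = S.card := by rw [hT, Finset.card_map]
    have e1 : X z ≤ ∑ w ∈ R, (Pr r (EdI m) T z w + ∑ y ∈ T, ∑ v ∈ R \ T,
        Pr r (EdI m) T z y * (r (Sum.inr s(y, v)) : ℝ) * Pr r (EdI m) R v w) :=
      Finset.sum_le_sum (fun w _ => step h1 h2 r (EdI m) T R z w hzT)
    have e2 : ∑ w ∈ R, Pr r (EdI m) T z w ≤ S.card := by
      rw [← hcard]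
      calc ∑ w ∈ R, Pr r (EdI m) T z w ≤ ∑ w ∈ R, if w ∈ T then (1 : ℝ) else 0 := by
            apply Finset.sum_le_sum
            intro w _
            split_ifs with hw
            · exact Pr_le_one _ _ _ _ _
            · rw [Pr_zero r (EdI m) (by exact_mod_cast hzT) (by exact_mod_cast hw)]
        _ = ((R.filter (fun w => w ∈ T)).card : ℝ) := by
            rw [Finset.sum_ite, Finset.sum_const, Finset.sum_const_zero, add_zero, nsmul_eq_mul,
              mul_one]
        _ ≤ T.card := by
            have : R.filter (fun w => w ∈ T) ⊆ T := by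
              intro w hw
              exact (Finset.mem_filter.1 hw).2
            exact_mod_cast Finset.card_le_card this
    have e3 : ∑ w ∈ R, ∑ y ∈ T, ∑ v ∈ R \ T,
        Pr r (EdI m) T z y * (r (Sum.inr s(y, v)) : ℝ) * Pr r (EdI m) R v w ≤ ρ * M := by
      calc ∑ w ∈ R, ∑ y ∈ T, ∑ v ∈ R \ T,
          Pr r (EdI m) T z y * (r (Sum.inr s(y, v)) : ℝ) * Pr r (EdI m) R v w
          = ∑ y ∈ T, ∑ v ∈ R \ T, Pr r (EdI m) T z y * (r (Sum.inr s(y, v)) : ℝ) * X v := by
            rw [Finset.sum_comm]
            apply Finset.sum_congr rfl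
            intro y _
            rw [Finset.sum_comm]
            apply Finset.sum_congr rfl
            intro v _
            rw [← Finset.mul_sum]
        _ ≤ ∑ y ∈ T, ∑ v ∈ R \ T, Pr r (EdI m) T z y * (r (Sum.inr s(y, v)) : ℝ) * M := by
            apply Finset.sum_le_sum
            intro y _
            apply Finset.sum_le_sum
            intro v hv
            have h3 := hXM v (Finset.mem_sdiff.1 hv).1
            have h4 := Pr_nonneg r (EdI m) T z y
            have h5 := (r (Sum.inr s(y, v))).2.1
            gcongr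
        _ = (∑ y ∈ T, Pr r (EdI m) T z y * ∑ v ∈ R \ T, (r (Sum.inr s(y, v)) : ℝ)) * M := by
            rw [Finset.sum_mul]
            apply Finset.sum_congr rfl
            intro y _
            rw [Finset.mul_sum, Finset.sum_mul]
        _ ≤ ρ * M := by
            apply mul_le_mul_of_nonneg_right _ hM0
            refine le_trans ?_ (hphi z)
            apply Finset.sum_le_sum
            intro y _
            have e4 : Pr r (EdI m) T z y = (pm r).real
                {ω | (G (EdI m) ω (T : Set (V n))).Reachable z y} := by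
              rw [Pr, Measure.real, Measure.real, pm_op r (fun v => rfl)
                {ω | (G (EdI m) ω (T : Set (V n))).Reachable z y}]
              rfl
            rw [e4]
            apply mul_le_mul_of_nonneg_left _ measureReal_nonneg
            have hsm : Summable (fun v : V n => if v ∈ T then (0 : ℝ) else
                (r (Sum.inr s(y, v)) : ℝ)) := by
              apply Summable.of_nonneg_of_le _ _ (prob_summable (m := m) 1 p β s hs y)
              · intro v
                split_ifs
                · exact le_refl _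
                · exact (r _).2.1
              · intro v
                split_ifs
                · exact (r _).2.1
                · exact le_refl _
            refine le_trans (le_of_eq ?_) (hsm.sum_le_tsum (R \ T) ?_)
            · apply Finset.sum_congr rfl
              intro v hv
              rw [if_neg (Finset.mem_sdiff.1 hv).2]
            · intro v _
              split_ifs
              · exact le_refl _
              · exact (r _).2.1
    rw [Finset.sum_add_distrib] at e1
    linarith
  have hMle : M ≤ S.card + ρ * M := Finset.sup'_le _ _ hstep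
  have h3 : M ≤ S.card / (1 - ρ) := by
    rw [le_div_iff₀ (by linarith)]
    linarith
  exact (hXM x hx).trans h3

/-- A connection uses finitely many vertices. -/
lemma reach_univ {n : ℕ} {E : Set (Sym2 (V n))} {ω : Cfg n} {x y : V n}
    (h : (G E ω univ).Reachable x y) :
    ∃ R : Finset (V n), (G E ω (R : Set (V n))).Reachable x y := by
  classical
  rw [reach_iff] at h
  induction h with
  | refl => exact ⟨∅, SimpleGraph.Reachable.refl _⟩
  | @tail a b _ hab ih =>
    obtain ⟨R, hR⟩ := ih
    refine ⟨R ∪ {a, b}, ?_⟩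
    have h1 : (R : Set (V n)) ⊆ ((R ∪ {a, b} : Finset (V n)) : Set (V n)) := by
      intro v hv
      simp only [Finset.coe_union, mem_union]
      exact Or.inl hv
    refine (reach_mono h1 hR).trans (SimpleGraph.Adj.reachable ?_)
    exact ⟨hab.1, by simp, by simp, hab.2.2.2⟩

theorem s_simon (h1 : S_indep) (h2 : S_depmeas) : S_simon := by
  classical
  intro n m p β s hs S ρ h0 hρ hphi x
  set r : Ix n → unitInterval := prob 1 p β s m with hr
  set K : ℝ := S.card / (1 - ρ) with hK
  have hfin : ∀ F : Finset (V n), ∑ w ∈ F,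
      pm r {ω | (G (EdI m) (op ω) univ).Reachable x w} ≤ ENNReal.ofReal K := by
    intro F
    have e1 : ∀ w, pm r {ω | (G (EdI m) (op ω) univ).Reachable x w} =
        ⨆ R : Finset (V n), pm r {ω | (G (EdI m) (op ω) (R : Set (V n))).Reachable x w} := by
      intro w
      rw [← Directed.measure_iUnion]
      · congr 1
        ext ω
        simp only [mem_iUnion]
        constructor
        · intro h
          exact reach_univ h
        · rintro ⟨R, hR⟩
          exact reach_mono (subset_univ _) hR
      · intro R R'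
        refine ⟨R ∪ R', ?_, ?_⟩
        · intro ω hω
          exact reach_mono (by simp) hω
        · intro ω hω
          exact reach_mono (by simp) hω
    simp_rw [e1]
    rw [ENNReal.finsetSum_iSup_of_monotone]
    · apply iSup_le
      intro R
      set R' : Finset (V n) := R ∪ F ∪ {x} with hR'
      calc ∑ w ∈ F, pm r {ω | (G (EdI m) (op ω) (R : Set (V n))).Reachable x w}
          ≤ ∑ w ∈ R', pm r {ω | (G (EdI m) (op ω) (R' : Set (V n))).Reachable x w} := by
            refine le_trans (Finset.sum_le_sum (g := fun w =>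
              pm r {ω | (G (EdI m) (op ω) (R' : Set (V n))).Reachable x w}) ?_) ?_
            · intro w _
              apply measure_mono
              intro ω hω
              refine reach_mono ?_ hω
              rw [hR']
              intro v hv
              simp only [Finset.coe_union, mem_union]
              exact Or.inl (Or.inl hv)
            · apply Finset.sum_le_sum_of_subset
              rw [hR']
              intro v hv
              simp [hv]
        _ = ENNReal.ofReal (∑ w ∈ R', Pr r (EdI m) (R' : Set (V n)) x w) := by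
            rw [ENNReal.ofReal_sum_of_nonneg (fun w _ => Pr_nonneg _ _ _ _ _)]
            apply Finset.sum_congr rfl
            intro w _
            rw [Pr, ofReal_measureReal]
        _ ≤ ENNReal.ofReal K := by
            apply ENNReal.ofReal_le_ofReal
            exact region_bound h1 h2 p β s hs S ρ h0 hρ hphi R' x (by simp [hR'])
    · intro w R R' hRR'
      apply measure_mono
      intro ω hω
      exact reach_mono (by exact_mod_cast hRR') hω
  have hsum : ∑' w, pm r {ω | (G (EdI m) (op ω) univ).Reachable x w} ≠ ⊤ := by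
    rw [ENNReal.tsum_eq_iSup_sum]
    exact ne_top_of_le_ne_top ENNReal.ofReal_ne_top (iSup_le hfin)
  have hae := ae_finite_setOfPred_mem hsum
  rw [Measure.real, pm_op r (fun v => rfl)]
  have h3 : pm r {ω | op ω ∈ Perc (EdI m) x} = 0 := by
    rw [← nonpos_iff_eq_zero, ← ae_iff.1 hae]
    apply measure_mono
    intro ω hω
    exact hω
  rw [h3, ENNReal.toReal_zero]

end

end Pool.Agent.W402.PC
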